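import Pool.Agent.N455.CW.Main

/-!
# The diameter of the set of the midpoints of the diametral chords

The largest possible diameter of the set `M(K)` of the midpoints of the diametral chords of a set
`K ⊂ ℝ^d` of constant width `1` is `1/2` for `d = 2` and `√2/2` for every `d ≥ 3`.

Upper bound: let `w` be the difference of the two midpoints and `p`, `q` the half difference and
the half sum of the two chord vectors; then `p ⊥ q`, `|p|² + |q|² = 1` and the four distances between
the ends of the two chords give `|w|² + 2 |⟨w, p⟩| + |p|² ≤ 1` and the same for `q`. In the plane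
`⟨w, p⟩² |q|² + ⟨w, q⟩² |p|² = |w|² |p|² |q|²`, which gives `|w| ≤ 1/2`.

Lower bound: by Meissner's completion theorem (proved in `Pool.Agent.N455.CW.Main`: for a set `X`
of diameter at most `1` let `H` be the intersection of the unit balls with centres in `X` and `T` the
intersection of the unit balls with centres in `H`; then `(H + T) / 2` has constant width `1`) the
vertices of a regular triangle (`d = 2`) or tetrahedron (`d ≥ 3`) with edge length `1` lie in a set
of constant width `1`.
-/

namespace Pool.Agent.Results.MP_04ec84_gt.DiamMidpoints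

open scoped RealInnerProductSpace
open Pool.Agent.N455.CW

/-- `K ⊂ ℝ^d` is a set of constant width `1`: it is compact and convex, and for every unit vector
`u` the distance `max ⟨x, u⟩ - min ⟨x, u⟩` (`x ∈ K`) of the two supporting hyperplanes of `K`
orthogonal to `u` is `1`. -/
structure ConstantWidthOne {d : ℕ} (K : Set (EuclideanSpace ℝ (Fin d))) : Prop where
  isCompact : IsCompact K
  convex : Convex ℝ K
  width : ∀ u : EuclideanSpace ℝ (Fin d), ‖u‖ = 1 →
    sSup ((fun x => ⟪x, u⟫) '' K) - sInf ((fun x => ⟪x, u⟫) '' K) = 1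

/-- The set `M(K)` of the midpoints of the diametral chords of `K`, the segments of length `1` with
ends in `K`. -/
def midpointSet {d : ℕ} (K : Set (EuclideanSpace ℝ (Fin d))) : Set (EuclideanSpace ℝ (Fin d)) :=
  {m | ∃ x ∈ K, ∃ y ∈ K, dist x y = 1 ∧ m = midpoint ℝ x y}

lemma norm_sq_three {E : Type*} [NormedAddCommGroup E] [InnerProductSpace ℝ E] {e : Fin 3 → E}
    (he : Orthonormal ℝ e) (x y z : ℝ) :
    ‖x • e 0 + y • e 1 + z • e 2‖ ^ 2 = x ^ 2 + y ^ 2 + z ^ 2 := by
  have h01 : ⟪e 0, e 1⟫ = (0 : ℝ) := he.2 (by decide)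
  have h02 : ⟪e 0, e 2⟫ = (0 : ℝ) := he.2 (by decide)
  have h12 : ⟪e 1, e 2⟫ = (0 : ℝ) := he.2 (by decide)
  rw [norm_add_sq_real, norm_add_sq_real]
  simp only [inner_add_left, inner_smul_left, inner_smul_right, conj_trivial, h01, h02, h12,
    norm_smul, he.1, Real.norm_eq_abs, mul_one, sq_abs]
  ring

lemma norm_sq_two {E : Type*} [NormedAddCommGroup E] [InnerProductSpace ℝ E] {e : Fin 2 → E}
    (he : Orthonormal ℝ e) (x y : ℝ) : ‖x • e 0 + y • e 1‖ ^ 2 = x ^ 2 + y ^ 2 := by
  have h01 : ⟪e 0, e 1⟫ = (0 : ℝ) := he.2 (by decide)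
  rw [norm_add_sq_real]
  simp only [inner_smul_left, inner_smul_right, conj_trivial, h01,
    norm_smul, he.1, Real.norm_eq_abs, mul_one, sq_abs]
  ring

lemma eq_of_sq {x y : ℝ} (hx : 0 ≤ x) (hy : 0 ≤ y) (h : x ^ 2 = y ^ 2) : x = y := by
  nlinarith [sq_nonneg (x - y), sq_nonneg (x + y)]

/-- two chords of length one whose ends have distances at most one and whose midpoints have
distance `c` give a set of constant width one whose midpoint set has diameter at least `c` -/
lemma exists_of_chords {d : ℕ} {a a' b b' : EuclideanSpace ℝ (Fin d)} (haa : dist a a' = 1)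
    (hbb : dist b b' = 1) (h1 : dist a b ≤ 1) (h2 : dist a b' ≤ 1) (h3 : dist a' b ≤ 1)
    (h4 : dist a' b' ≤ 1) :
    ∃ K : Set (EuclideanSpace ℝ (Fin d)), ConstantWidthOne K ∧
      dist (midpoint ℝ a a') (midpoint ℝ b b') ≤ Metric.diam (midpointSet K) := by
  obtain ⟨K, hK, hX⟩ := completion (X := {a, a', b, b'}) ⟨a, by simp⟩ (by
    have s : ∀ x y : EuclideanSpace ℝ (Fin d), dist x y ≤ 1 → dist y x ≤ 1 := by
      intro x y h; rwa [dist_comm]
    intro x hx y hy
    simp only [Set.mem_insert_iff, Set.mem_singleton_iff] at hx hy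
    rcases hx with rfl | rfl | rfl | rfl <;> rcases hy with rfl | rfl | rfl | rfl <;>
      first
        | (rw [dist_self]; norm_num)
        | exact haa.le
        | exact hbb.le
        | exact s _ _ haa.le
        | exact s _ _ hbb.le
        | exact h1
        | exact h2
        | exact h3
        | exact h4
        | exact s _ _ h1
        | exact s _ _ h2
        | exact s _ _ h3
        | exact s _ _ h4)
  refine ⟨K, ⟨hK.isCompact, hK.convex, hK.width⟩, ?_⟩
  have hbd : Bornology.IsBounded (midpointSet K) :=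
    hK.isCompact.isBounded.subset (mids_subset hK.convex)
  exact Metric.dist_le_diam_of_mem hbd
    ⟨a, hX (by simp), a', hX (by simp), haa, rfl⟩ ⟨b, hX (by simp), b', hX (by simp), hbb, rfl⟩

/-- **The largest diameter of `M(K)`**: among the sets `K ⊂ ℝ^d`, `d ≥ 2`, of constant width `1`,
the largest value of the diameter of the set of the midpoints of the diametral chords of `K` is
`1/2` if `d = 2` and `√2/2` if `d ≥ 3` (and it is attained). -/
theorem result : ∀ d : ℕ, 2 ≤ d →
    IsGreatest {t : ℝ | ∃ K : Set (EuclideanSpace ℝ (Fin d)), ConstantWidthOne K ∧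
      t = Metric.diam (midpointSet K)} (if d = 2 then 1 / 2 else √2 / 2) := by
  intro d hd
  -- upper bound
  have upper : ∀ K : Set (EuclideanSpace ℝ (Fin d)), ConstantWidthOne K →
      Metric.diam (midpointSet K) ≤ (if d = 2 then 1 / 2 else √2 / 2) := by
    intro K hK
    have hK' : IsCW K := ⟨hK.isCompact, hK.convex, hK.width⟩
    apply Metric.diam_le_of_forall_dist_le
    · split_ifs <;> positivity
    · rintro _ ⟨a, ha, a', ha', haa, rfl⟩ _ ⟨b, hb, b', hb', hbb, rfl⟩
      split_ifs with h
      · subst h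
        exact mid_bound_plane haa hbb (hK'.dist_le ha hb) (hK'.dist_le ha hb')
          (hK'.dist_le ha' hb) (hK'.dist_le ha' hb')
      · exact mid_bound haa hbb (hK'.dist_le ha hb) (hK'.dist_le ha hb')
          (hK'.dist_le ha' hb) (hK'.dist_le ha' hb')
  -- lower bound
  have lower : ∃ K : Set (EuclideanSpace ℝ (Fin d)), ConstantWidthOne K ∧
      (if d = 2 then 1 / 2 else √2 / 2) ≤ Metric.diam (midpointSet K) := by
    by_cases h : d = 2
    · subst h
      have he : Orthonormal ℝ (fun i : Fin 2 => (EuclideanSpace.single i (1 : ℝ))) :=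
        EuclideanSpace.orthonormal_single
      set e : Fin 2 → EuclideanSpace ℝ (Fin 2) := fun i => EuclideanSpace.single i (1 : ℝ) with hedef
      have s3 : (√3 : ℝ) ^ 2 = 3 := Real.sq_sqrt (by norm_num)
      have D : ∀ (u v : EuclideanSpace ℝ (Fin 2)) (x y c : ℝ), 0 ≤ c → u - v = x • e 0 + y • e 1 →
          x ^ 2 + y ^ 2 = c ^ 2 → dist u v = c := by
        intro u v x y c hc huv hxy
        refine eq_of_sq dist_nonneg hc ?_
        rw [dist_eq_norm, huv, norm_sq_two he, hxy]
      obtain ⟨K, hK, hle⟩ := exists_of_chords (d := 2) (a := 0) (a' := e 0) (b := 0)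
        (b' := (1 / 2 : ℝ) • e 0 + (√3 / 2) • e 1)
        (D _ _ (-1) 0 1 (by norm_num) (by module) (by norm_num))
        (D _ _ (-1 / 2) (-√3 / 2) 1 (by norm_num) (by module) (by nlinarith))
        (by rw [dist_self]; norm_num)
        (D _ _ (-1 / 2) (-√3 / 2) 1 (by norm_num) (by module) (by nlinarith)).le
        (D _ _ 1 0 1 (by norm_num) (by module) (by norm_num)).le
        (D _ _ (1 / 2) (-√3 / 2) 1 (by norm_num) (by module) (by nlinarith)).le
      refine ⟨K, hK, ?_⟩
      rw [if_pos rfl]
      refine le_trans (le_of_eq ?_) hle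
      symm
      refine D _ _ (1 / 4) (-√3 / 4) (1 / 2) (by norm_num) ?_ (by nlinarith)
      rw [midpoint_eq_smul_add, midpoint_eq_smul_add, invOf_eq_inv]
      module
    · have h3 : 3 ≤ d := by omega
      have he : Orthonormal ℝ (fun i : Fin 3 =>
          (EuclideanSpace.single (Fin.castLE h3 i) (1 : ℝ) : EuclideanSpace ℝ (Fin d))) :=
        (EuclideanSpace.orthonormal_single (𝕜 := ℝ) (ι := Fin d)).comp _
          (Fin.castLE_injective h3)
      set e : Fin 3 → EuclideanSpace ℝ (Fin d) :=
        fun i => EuclideanSpace.single (Fin.castLE h3 i) (1 : ℝ) with hedef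
      have s2 : (√2 : ℝ) ^ 2 = 2 := Real.sq_sqrt (by norm_num)
      have D : ∀ (u v : EuclideanSpace ℝ (Fin d)) (x y z c : ℝ), 0 ≤ c →
          u - v = x • e 0 + y • e 1 + z • e 2 →
          x ^ 2 + y ^ 2 + z ^ 2 = c ^ 2 → dist u v = c := by
        intro u v x y z c hc huv hxy
        refine eq_of_sq dist_nonneg hc ?_
        rw [dist_eq_norm, huv, norm_sq_three he, hxy]
      obtain ⟨K, hK, hle⟩ := exists_of_chords (d := d)
        (a := (1 / 2 : ℝ) • e 0 + (√2 / 4) • e 2) (a' := (-1 / 2 : ℝ) • e 0 + (√2 / 4) • e 2)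
        (b := (1 / 2 : ℝ) • e 1 - (√2 / 4) • e 2) (b' := (-1 / 2 : ℝ) • e 1 - (√2 / 4) • e 2)
        (D _ _ 1 0 0 1 (by norm_num) (by module) (by norm_num))
        (D _ _ 0 1 0 1 (by norm_num) (by module) (by norm_num))
        (D _ _ (1 / 2) (-1 / 2) (√2 / 2) 1 (by norm_num) (by module) (by nlinarith)).le
        (D _ _ (1 / 2) (1 / 2) (√2 / 2) 1 (by norm_num) (by module) (by nlinarith)).le
        (D _ _ (-1 / 2) (-1 / 2) (√2 / 2) 1 (by norm_num) (by module) (by nlinarith)).le
        (D _ _ (-1 / 2) (1 / 2) (√2 / 2) 1 (by norm_num) (by module) (by nlinarith)).le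
      refine ⟨K, hK, ?_⟩
      rw [if_neg h]
      refine le_trans (le_of_eq ?_) hle
      symm
      refine D _ _ 0 0 (√2 / 2) (√2 / 2) (by positivity) ?_ (by ring)
      rw [midpoint_eq_smul_add, midpoint_eq_smul_add, invOf_eq_inv]
      module
  obtain ⟨K, hK, hle⟩ := lower
  refine ⟨⟨K, hK, le_antisymm hle (upper K hK)⟩, ?_⟩
  rintro _ ⟨K', hK', rfl⟩
  exact upper K' hK'

end Pool.Agent.Results.MP_04ec84_gt.DiamMidpoints
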