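import Mathlib

/-!
# Sets of constant width 1: completion of sets of diameter 1, midpoints of diametral chords
-/

set_option linter.unusedSectionVars false

namespace Pool.Agent.N455.CW

open scoped RealInnerProductSpace

variable {E : Type*} [NormedAddCommGroup E] [InnerProductSpace ℝ E]

/-- The intersection of the closed unit balls with centres in `X`. -/
def eta (X : Set E) : Set E := {y | ∀ x ∈ X, dist x y ≤ 1}

lemma mem_eta {X : Set E} {y : E} : y ∈ eta X ↔ ∀ x ∈ X, dist x y ≤ 1 := Iff.rfl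

lemma subset_eta_eta (X : Set E) : X ⊆ eta (eta X) := by
  intro x hx y hy
  rw [dist_comm]
  exact hy x hx

lemma eta_anti {X Y : Set E} (h : X ⊆ Y) : eta Y ⊆ eta X := fun _ hy x hx => hy x (h hx)

lemma eta_eta_eta (X : Set E) : eta (eta (eta X)) = eta X :=
  Set.Subset.antisymm (eta_anti (subset_eta_eta X)) (subset_eta_eta (eta X))

lemma eta_convex (X : Set E) : Convex ℝ (eta X) := by
  have : eta X = ⋂ x ∈ X, Metric.closedBall x 1 := by
    ext y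
    simp only [mem_eta, Set.mem_iInter, Metric.mem_closedBall, dist_comm]
  rw [this]
  exact convex_iInter₂ (fun x _ => convex_closedBall x 1)

lemma eta_closed (X : Set E) : IsClosed (eta X) := by
  have : eta X = ⋂ x ∈ X, Metric.closedBall x 1 := by
    ext y
    simp only [mem_eta, Set.mem_iInter, Metric.mem_closedBall, dist_comm]
  rw [this]
  exact isClosed_biInter (fun x _ => Metric.isClosed_closedBall)

lemma eta_compact [FiniteDimensional ℝ E] {X : Set E} (hX : X.Nonempty) : IsCompact (eta X) := by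
  obtain ⟨x, hx⟩ := hX
  have : ProperSpace E := FiniteDimensional.proper ℝ E
  refine (isCompact_closedBall x 1).of_isClosed_subset (eta_closed X) ?_
  intro y hy
  rw [Metric.mem_closedBall, dist_comm]
  exact hy x hx

/-- The points of a small bulge over a chord lie in all unit balls containing the end points. -/
lemma bulge {a v u : E} {t : ℝ} (ha : ‖a‖ ≤ 1) (hav : ‖a + v‖ ≤ 1) (hu : ‖u‖ = 1)
    (ht0 : 0 < t) (ht1 : t < 1 / 2) :
    ‖a + t • v - (t * (1 - 2 * t) * ‖v‖ ^ 2 / 2) • u‖ ≤ 1 := by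
  have hv2 : ‖v‖ ≤ 2 := by
    have h1 : ‖v‖ = ‖(a + v) - a‖ := by congr 1; abel
    rw [h1]
    calc ‖(a + v) - a‖ ≤ ‖a + v‖ + ‖a‖ := norm_sub_le _ _
      _ ≤ 2 := by linarith
  have hv0 : 0 ≤ ‖v‖ := norm_nonneg v
  have hV4 : ‖v‖ ^ 2 ≤ 4 := by nlinarith
  have hV0 : 0 ≤ ‖v‖ ^ 2 := by positivity
  have key : ‖a + t • v‖ ^ 2 ≤ 1 - t * (1 - t) * ‖v‖ ^ 2 := by
    have e1 : ‖a + t • v‖ ^ 2 = (1 - t) * ‖a‖ ^ 2 + t * ‖a + v‖ ^ 2 - t * (1 - t) * ‖v‖ ^ 2 := by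
      rw [norm_add_sq_real, norm_add_sq_real, inner_smul_right, norm_smul, Real.norm_eq_abs,
        mul_pow, sq_abs]
      ring
    rw [e1]
    have ha2 : ‖a‖ ^ 2 ≤ 1 := by
      have := norm_nonneg a
      nlinarith
    have hav2 : ‖a + v‖ ^ 2 ≤ 1 := by
      have := norm_nonneg (a + v)
      nlinarith
    nlinarith
  set s : ℝ := t * (1 - 2 * t) * ‖v‖ ^ 2 / 2 with hs
  have hs0 : 0 ≤ s := by
    rw [hs]
    have : 0 ≤ 1 - 2 * t := by linarith
    positivity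
  have h2 : ‖a + t • v - s • u‖ ≤ ‖a + t • v‖ + s := by
    calc ‖a + t • v - s • u‖ ≤ ‖a + t • v‖ + ‖s • u‖ := norm_sub_le _ _
      _ = ‖a + t • v‖ + s := by rw [norm_smul, hu, mul_one, Real.norm_eq_abs, abs_of_nonneg hs0]
  have hr0 : 0 ≤ ‖a + t • v‖ := norm_nonneg _
  have hr1 : ‖a + t • v‖ ≤ 1 := by
    have h3 : 0 ≤ t * (1 - t) * ‖v‖ ^ 2 := by
      have : 0 ≤ 1 - t := by linarith
      positivity
    nlinarith
  have h4 : (‖a + t • v‖ + s) ^ 2 ≤ 1 := by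
    have h5 : (‖a + t • v‖ + s) ^ 2 ≤ 1 - t * (1 - t) * ‖v‖ ^ 2 + 2 * s + s ^ 2 := by nlinarith
    have h6 : 1 - t * (1 - t) * ‖v‖ ^ 2 + 2 * s + s ^ 2
        = 1 - t ^ 2 * ‖v‖ ^ 2 * (1 - (1 - 2 * t) ^ 2 * (‖v‖ ^ 2 / 4)) := by
      rw [hs]; ring
    have h7 : 0 ≤ 1 - (1 - 2 * t) ^ 2 * (‖v‖ ^ 2 / 4) := by
      have h8 : (1 - 2 * t) ^ 2 ≤ 1 := by nlinarith
      have h9 : ‖v‖ ^ 2 / 4 ≤ 1 := by linarith
      have h10 : 0 ≤ ‖v‖ ^ 2 / 4 := by positivity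
      have h11 : 0 ≤ (1 - 2 * t) ^ 2 := by positivity
      nlinarith
    have h12 : 0 ≤ t ^ 2 * ‖v‖ ^ 2 * (1 - (1 - 2 * t) ^ 2 * (‖v‖ ^ 2 / 4)) := by positivity
    linarith
  have h13 : ‖a + t • v‖ + s ≤ 1 := by
    nlinarith
  linarith

/-- At a point `x` where `⟪·, u⟫` is minimal on an intersection of unit balls, the whole set lies in
the unit ball with centre `x + u`. -/
lemma support_ball {Y : Set E} {x u : E} (hx : x ∈ eta Y) (hu : ‖u‖ = 1)
    (hmin : ∀ z ∈ eta Y, ⟪x, u⟫ ≤ ⟪z, u⟫) : x + u ∈ eta (eta Y) := by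
  intro z hz
  by_contra hcon
  push Not at hcon
  set v : E := z - x with hv
  have h1 : 1 < ‖v - u‖ ^ 2 := by
    have e : ‖v - u‖ = dist z (x + u) := by
      rw [dist_eq_norm, hv]; congr 1; abel
    rw [e]
    nlinarith
  have h2 : 2 * ⟪v, u⟫ < ‖v‖ ^ 2 := by
    rw [norm_sub_sq_real, hu] at h1
    nlinarith
  set δ : ℝ := ‖v‖ ^ 2 / 2 - ⟪v, u⟫ with hδ
  have hδ0 : 0 < δ := by rw [hδ]; linarith
  have hV0 : 0 ≤ ‖v‖ ^ 2 := by positivity
  set t : ℝ := δ / (2 * (‖v‖ ^ 2 + δ)) with ht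
  have hden : 0 < 2 * (‖v‖ ^ 2 + δ) := by positivity
  have ht0 : 0 < t := by rw [ht]; positivity
  have hVpos : 0 < ‖v‖ ^ 2 := by
    rcases hV0.lt_or_eq with h | h
    · exact h
    · exfalso
      have hv0 : v = 0 := by
        have : ‖v‖ = 0 := by
          have := h.symm
          exact pow_eq_zero_iff (two_ne_zero) |>.mp this
        exact norm_eq_zero.mp this
      rw [hv0] at h2
      simp at h2
  have ht1 : t < 1 / 2 := by
    rw [ht, div_lt_div_iff₀ hden (by norm_num)]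
    nlinarith
  have htV : t * ‖v‖ ^ 2 < δ := by
    rw [ht, div_mul_eq_mul_div, div_lt_iff₀ hden]
    nlinarith
  set s : ℝ := t * (1 - 2 * t) * ‖v‖ ^ 2 / 2 with hs
  have hp : x + t • v - s • u ∈ eta Y := by
    intro y hy
    have hxy := hx y hy
    have hzy := hz y hy
    have b := bulge (a := x - y) (v := v) (u := u) (t := t)
      (by rw [← dist_eq_norm, dist_comm]; exact hxy)
      (by
        have : x - y + v = z - y := by rw [hv]; abel
        rw [this, ← dist_eq_norm, dist_comm]; exact hzy) hu ht0 ht1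
    rw [dist_comm, dist_eq_norm]
    have e : x + t • v - s • u - y = x - y + t • v - s • u := by abel
    rw [e]
    exact b
  have h3 := hmin _ hp
  rw [inner_sub_left, inner_add_left, inner_smul_left, inner_smul_left] at h3
  simp only [conj_trivial] at h3
  rw [real_inner_self_eq_norm_sq, hu] at h3
  have h4 : s ≤ t * ⟪v, u⟫ := by nlinarith
  have h5 : (1 - 2 * t) * ‖v‖ ^ 2 / 2 ≤ ⟪v, u⟫ := by
    rw [hs] at h4
    have : t * ((1 - 2 * t) * ‖v‖ ^ 2 / 2) ≤ t * ⟪v, u⟫ := by nlinarith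
    exact le_of_mul_le_mul_left this ht0
  rw [hδ] at htV
  nlinarith

/-- Sets of constant width `1` in a Euclidean space. -/
structure IsCW (K : Set E) : Prop where
  isCompact : IsCompact K
  convex : Convex ℝ K
  width : ∀ u : E, ‖u‖ = 1 →
    sSup ((fun x => ⟪x, u⟫) '' K) - sInf ((fun x => ⟪x, u⟫) '' K) = 1

/-- **Meissner's completion theorem**: a nonempty set in which any two points have distance at most
`1` lies in a set of constant width `1`. -/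
theorem completion [FiniteDimensional ℝ E] {X : Set E} (hX : X.Nonempty)
    (hd : ∀ x ∈ X, ∀ y ∈ X, dist x y ≤ 1) : ∃ K : Set E, IsCW K ∧ X ⊆ K := by
  have hXη : X ⊆ eta X := fun y hy x hx => hd x hx y hy
  have hXθ : X ⊆ eta (eta X) := subset_eta_eta X
  have hη : (eta X).Nonempty := hX.mono hXη
  have hθ : (eta (eta X)).Nonempty := hX.mono hXθ
  have cη : IsCompact (eta X) := eta_compact hX
  have cθ : IsCompact (eta (eta X)) := eta_compact hη
  set K : Set E := (fun p : E × E => (1 / 2 : ℝ) • (p.1 + p.2)) '' (eta X ×ˢ eta (eta X)) with hK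
  refine ⟨K, ⟨?_, ?_, ?_⟩, ?_⟩
  · exact (cη.prod cθ).image (by fun_prop)
  · have hc : Convex ℝ (eta X ×ˢ eta (eta X)) := (eta_convex X).prod (eta_convex _)
    exact hc.linear_image ((1 / 2 : ℝ) • (LinearMap.fst ℝ E E + LinearMap.snd ℝ E E))
  · intro u hu
    have hcont : Continuous (fun x : E => ⟪x, u⟫) := by fun_prop
    obtain ⟨x0, hx0, hx0min⟩ := cθ.exists_isMinOn hθ hcont.continuousOn
    obtain ⟨x1, hx1, hx1max⟩ := cθ.exists_isMaxOn hθ hcont.continuousOn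
    have hx0min' : ∀ z ∈ eta (eta X), ⟪x0, u⟫ ≤ ⟪z, u⟫ := fun z hz => hx0min hz
    have hx1max' : ∀ z ∈ eta (eta X), ⟪z, u⟫ ≤ ⟪x1, u⟫ := fun z hz => hx1max hz
    have hy0 : x0 + u ∈ eta X := by
      rw [← eta_eta_eta X]
      exact support_ball hx0 hu hx0min'
    have hy1 : x1 + -u ∈ eta X := by
      rw [← eta_eta_eta X]
      refine support_ball hx1 (by rw [norm_neg, hu]) (fun z hz => ?_)
      rw [inner_neg_right, inner_neg_right]
      exact neg_le_neg (hx1max' z hz)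
    have huu : ⟪u, u⟫ = (1 : ℝ) := by rw [real_inner_self_eq_norm_sq, hu]; norm_num
    have hsub : ∀ y ∈ eta X, ∀ x ∈ eta (eta X), |⟪y, u⟫ - ⟪x, u⟫| ≤ 1 := by
      intro y hy x hx
      rw [← inner_sub_left]
      calc |⟪y - x, u⟫| ≤ ‖y - x‖ * ‖u‖ := abs_real_inner_le_norm _ _
        _ = dist y x := by rw [hu, mul_one, dist_eq_norm]
        _ ≤ 1 := hx y hy
    have g1 : IsGreatest ((fun x => ⟪x, u⟫) '' K) ((⟪x0, u⟫ + ⟪x1, u⟫ + 1) / 2) := by
      constructor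
      · refine ⟨(1 / 2 : ℝ) • ((x0 + u) + x1), ⟨(x0 + u, x1), ⟨hy0, hx1⟩, rfl⟩, ?_⟩
        simp only [inner_smul_left, inner_add_left, conj_trivial, huu]
        ring
      · rintro _ ⟨_, ⟨⟨y, x⟩, ⟨hy, hx⟩, rfl⟩, rfl⟩
        simp only [inner_smul_left, inner_add_left, conj_trivial]
        have i1 := (abs_le.mp (hsub y hy x0 hx0)).2
        have i2 := hx1max' x hx
        linarith
    have g2 : IsLeast ((fun x => ⟪x, u⟫) '' K) ((⟪x0, u⟫ + ⟪x1, u⟫ - 1) / 2) := by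
      constructor
      · refine ⟨(1 / 2 : ℝ) • ((x1 + -u) + x0), ⟨(x1 + -u, x0), ⟨hy1, hx0⟩, rfl⟩, ?_⟩
        simp only [inner_smul_left, inner_add_left, inner_neg_left, conj_trivial, huu]
        ring
      · rintro _ ⟨_, ⟨⟨y, x⟩, ⟨hy, hx⟩, rfl⟩, rfl⟩
        simp only [inner_smul_left, inner_add_left, conj_trivial]
        have i1 := (abs_le.mp (hsub y hy x1 hx1)).1
        have i2 := hx0min' x hx
        linarith
    rw [g1.csSup_eq, g2.csInf_eq]
    ring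
  · intro x hx
    refine ⟨(x, x), ⟨hXη hx, hXθ hx⟩, ?_⟩
    simp only
    rw [← two_smul ℝ x, smul_smul]
    norm_num

/-- Two points of a set of constant width `1` have distance at most `1`. -/
lemma IsCW.dist_le {K : Set E} (hK : IsCW K) {x y : E} (hx : x ∈ K) (hy : y ∈ K) :
    dist x y ≤ 1 := by
  by_cases hxy : x = y
  · rw [hxy, dist_self]; norm_num
  have hn : ‖x - y‖ ≠ 0 := norm_ne_zero_iff.mpr (sub_ne_zero.mpr hxy)
  set u : E := ‖x - y‖⁻¹ • (x - y) with hu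
  have hu1 : ‖u‖ = 1 := by
    rw [hu, norm_smul, norm_inv, norm_norm, inv_mul_cancel₀ hn]
  have hw := hK.width u hu1
  have hcont : Continuous (fun x : E => ⟪x, u⟫) := by fun_prop
  have hc : IsCompact ((fun x => ⟪x, u⟫) '' K) := hK.isCompact.image hcont
  have h1 : ⟪x, u⟫ ≤ sSup ((fun x => ⟪x, u⟫) '' K) := le_csSup hc.bddAbove ⟨x, hx, rfl⟩
  have h2 : sInf ((fun x => ⟪x, u⟫) '' K) ≤ ⟪y, u⟫ := csInf_le hc.bddBelow ⟨y, hy, rfl⟩
  have h3 : ⟪x, u⟫ - ⟪y, u⟫ = dist x y := by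
    rw [← inner_sub_left, hu, inner_smul_right, real_inner_self_eq_norm_sq, dist_eq_norm]
    field_simp
  linarith

/-- The midpoints of the diametral chords (the chords of length `1`). -/
def mids (K : Set E) : Set E := {m | ∃ x ∈ K, ∃ y ∈ K, dist x y = 1 ∧ m = midpoint ℝ x y}

lemma mids_subset {K : Set E} (hK : Convex ℝ K) : mids K ⊆ K := by
  rintro m ⟨x, hx, y, hy, -, rfl⟩
  exact hK.midpoint_mem hx hy

/-- Four distances, in terms of the half sum and the half difference of the chord vectors. -/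
lemma four_dists {a a' b b' : E} (haa : dist a a' = 1) (hbb : dist b b' = 1)
    (h1 : dist a b ≤ 1) (h2 : dist a b' ≤ 1) (h3 : dist a' b ≤ 1) (h4 : dist a' b' ≤ 1) :
    ∃ w p q : E, dist (midpoint ℝ a a') (midpoint ℝ b b') = ‖w‖ ∧ ⟪p, q⟫ = (0 : ℝ) ∧
      ‖p‖ ^ 2 + ‖q‖ ^ 2 = 1 ∧ ‖w‖ ^ 2 + 2 * |⟪w, p⟫| + ‖p‖ ^ 2 ≤ 1 ∧
      ‖w‖ ^ 2 + 2 * |⟪w, q⟫| + ‖q‖ ^ 2 ≤ 1 := by
  set w : E := midpoint ℝ a a' - midpoint ℝ b b' with hw
  set p : E := (1 / 4 : ℝ) • ((a - a') - (b - b')) + (1 / 4 : ℝ) • ((a - a') - (b - b')) with hp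
  set q : E := (1 / 4 : ℝ) • ((a - a') + (b - b')) + (1 / 4 : ℝ) • ((a - a') + (b - b')) with hq
  have hm1 : midpoint ℝ a a' = (1 / 2 : ℝ) • (a + a') := by
    rw [midpoint_eq_smul_add]; norm_num
  have hm2 : midpoint ℝ b b' = (1 / 2 : ℝ) • (b + b') := by
    rw [midpoint_eq_smul_add]; norm_num
  have e1 : a - b = w + p := by
    rw [hw, hp, hm1, hm2]; module
  have e2 : a - b' = w + q := by
    rw [hw, hq, hm1, hm2]; module
  have e3 : a' - b = w - q := by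
    rw [hw, hq, hm1, hm2]; module
  have e4 : a' - b' = w - p := by
    rw [hw, hp, hm1, hm2]; module
  have e5 : a - a' = p + q := by
    rw [hp, hq]; module
  have e6 : b - b' = q - p := by
    rw [hp, hq]; module
  have n5 : ‖p + q‖ ^ 2 = 1 := by rw [← e5, ← dist_eq_norm, haa]; norm_num
  have n6 : ‖q - p‖ ^ 2 = 1 := by rw [← e6, ← dist_eq_norm, hbb]; norm_num
  have n1 : ‖w + p‖ ^ 2 ≤ 1 := by
    rw [← e1, ← dist_eq_norm]
    have := dist_nonneg (x := a) (y := b)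
    nlinarith
  have n2 : ‖w + q‖ ^ 2 ≤ 1 := by
    rw [← e2, ← dist_eq_norm]
    have := dist_nonneg (x := a) (y := b')
    nlinarith
  have n3 : ‖w - q‖ ^ 2 ≤ 1 := by
    rw [← e3, ← dist_eq_norm]
    have := dist_nonneg (x := a') (y := b)
    nlinarith
  have n4 : ‖w - p‖ ^ 2 ≤ 1 := by
    rw [← e4, ← dist_eq_norm]
    have := dist_nonneg (x := a') (y := b')
    nlinarith
  rw [norm_add_sq_real] at n5 n1 n2
  rw [norm_sub_sq_real] at n6 n3 n4
  rw [real_inner_comm] at n6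
  refine ⟨w, p, q, by rw [dist_eq_norm], by linarith, by linarith, ?_, ?_⟩
  · rcases abs_cases ⟪w, p⟫ with ⟨h, _⟩ | ⟨h, _⟩ <;> rw [h] <;> linarith
  · rcases abs_cases ⟪w, q⟫ with ⟨h, _⟩ | ⟨h, _⟩ <;> rw [h] <;> linarith

/-- The general bound for the distance of the midpoints of two diametral chords. -/
lemma mid_bound {a a' b b' : E} (haa : dist a a' = 1) (hbb : dist b b' = 1)
    (h1 : dist a b ≤ 1) (h2 : dist a b' ≤ 1) (h3 : dist a' b ≤ 1) (h4 : dist a' b' ≤ 1) :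
    dist (midpoint ℝ a a') (midpoint ℝ b b') ≤ √2 / 2 := by
  obtain ⟨w, p, q, hw, -, hpq, k1, k2⟩ := four_dists haa hbb h1 h2 h3 h4
  rw [hw]
  have hp := abs_nonneg (⟪w, p⟫ : ℝ)
  have hq := abs_nonneg (⟪w, q⟫ : ℝ)
  have h : ‖w‖ ^ 2 ≤ (√2 / 2) ^ 2 := by
    rw [div_pow, Real.sq_sqrt (by norm_num)]
    linarith
  exact (le_abs_self _).trans (abs_le_of_sq_le_sq h (by positivity))

/-- The bound in the plane. -/
lemma mid_bound_plane {a a' b b' : EuclideanSpace ℝ (Fin 2)} (haa : dist a a' = 1)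
    (hbb : dist b b' = 1) (h1 : dist a b ≤ 1) (h2 : dist a b' ≤ 1) (h3 : dist a' b ≤ 1)
    (h4 : dist a' b' ≤ 1) :
    dist (midpoint ℝ a a') (midpoint ℝ b b') ≤ 1 / 2 := by
  obtain ⟨w, p, q, hw, h0, hpq, k1, k2⟩ := four_dists haa hbb h1 h2 h3 h4
  rw [hw]
  have gram : ⟪w, p⟫ ^ 2 * ‖q‖ ^ 2 + ⟪w, q⟫ ^ 2 * ‖p‖ ^ 2 = ‖w‖ ^ 2 * ‖p‖ ^ 2 * ‖q‖ ^ 2 := by
    simp only [EuclideanSpace.norm_sq_eq, PiLp.inner_apply, Fin.sum_univ_two, RCLike.inner_apply,
      conj_trivial, Real.norm_eq_abs, sq_abs] at h0 ⊢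
    linear_combination (2 * (p 0 * w 0 + p 1 * w 1) * (q 0 * w 0 + q 1 * w 1)
      - (w 0 ^ 2 + w 1 ^ 2) * (q 0 * p 0 + q 1 * p 1)) * h0
  set P : ℝ := ‖p‖ ^ 2 with hP
  set Q : ℝ := ‖q‖ ^ 2 with hQ
  set R : ℝ := ‖w‖ ^ 2 with hR
  have hP0 : 0 ≤ P := by positivity
  have hQ0 : 0 ≤ Q := by positivity
  have hR0 : 0 ≤ R := by positivity
  have A0 := abs_nonneg (⟪w, p⟫ : ℝ)
  have B0 := abs_nonneg (⟪w, q⟫ : ℝ)
  have hA : 2 * |⟪w, p⟫| ≤ Q - R := by linarith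
  have hB : 2 * |⟪w, q⟫| ≤ P - R := by linarith
  have hA2 : 4 * ⟪w, p⟫ ^ 2 ≤ (Q - R) ^ 2 := by
    rw [← sq_abs]; nlinarith
  have hB2 : 4 * ⟪w, q⟫ ^ 2 ≤ (P - R) ^ 2 := by
    rw [← sq_abs]; nlinarith
  have hRQ : R ≤ Q := by linarith
  have hRP : R ≤ P := by linarith
  have main : 3 * (P * Q) ≤ (1 - R) ^ 2 := by
    have i1 : 4 * (R * P * Q) ≤ (Q - R) ^ 2 * Q + (P - R) ^ 2 * P := by nlinarith
    have hQ1 : Q = 1 - P := by linarith
    rw [hQ1] at i1 ⊢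
    nlinarith
  have hR4 : R ≤ 1 / 4 := by
    by_contra hcon
    push Not at hcon
    have hQ1 : Q = 1 - P := by linarith
    have : 3 / 16 < P * Q := by
      rw [hQ1]
      nlinarith
    nlinarith
  have h5 : ‖w‖ ^ 2 ≤ (1 / 2) ^ 2 := by rw [← hR]; linarith
  exact (le_abs_self _).trans (abs_le_of_sq_le_sq h5 (by norm_num))

end Pool.Agent.N455.CW
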